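import Pool.Agent.KS6_9.GH.Fam

/-!
# Uniqueness at Gromov-Hausdorff distance zero: the distance sets which force it

Let `D` be a closed discrete set of nonnegative numbers containing `0` (a possible distance set).
Every metric space with distance set `D` has the uniqueness property if and only if the gaps of
`D` are bounded from below.  If they are not, there are continuum many pairwise non-isometric
countable ultrametric spaces with distance set `D`, all at mutual Gromov-Hausdorff distance zero.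
-/

set_option autoImplicit false
set_option linter.style.haveILetI false

open Set Metric
open scoped ENNReal

namespace Pool.Agent.Results.MP_1d6438_gt.Dichotomy

open Pool.Agent.KS6_9.GH

/-- the uniqueness property -/
def Unique (X : Type) [MetricSpace X] : Prop :=
  ∀ (Y : Type) [MetricSpace Y] [Nonempty Y], dGH X Y = 0 → Nonempty (X ≃ᵢ Y)

/-- the gaps of `D` are bounded from below -/
def Gaps (D : Set ℝ) : Prop := ∃ r > 0, ∀ a ∈ D, ∀ b ∈ D, a ≠ b → r ≤ |a - b|

/-! ### Bounded gaps -/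

lemma corr {X Y : Type} [MetricSpace X] [MetricSpace Y] (h : dGH X Y = 0) {ε : ℝ} (hε : 0 < ε) :
    ∃ (f : X → Y) (g : Y → X), (∀ x x', |dist x x' - dist (f x) (f x')| ≤ 2 * ε) ∧
      (∀ y y', |dist y y' - dist (g y) (g y')| ≤ 2 * ε) ∧
      ∀ y, dist (f (g y)) y ≤ 2 * ε := by
  have h1 : dGH X Y < ENNReal.ofReal ε := by rw [h]; exact ENNReal.ofReal_pos.2 hε
  unfold dGH at h1
  simp only [iInf_lt_iff] at h1
  obtain ⟨Z, _, φ, ψ, hφ, hψ, h2⟩ := h1
  have a1 : ∀ x : X, ∃ y : Y, dist (φ x) (ψ y) < ε := by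
    intro x
    obtain ⟨_, ⟨y, rfl⟩, hy⟩ := exists_edist_lt_of_hausdorffEDist_lt (mem_range_self x) h2
    rw [edist_dist] at hy
    exact ⟨y, (ENNReal.ofReal_lt_ofReal_iff hε).1 hy⟩
  have a2 : ∀ y : Y, ∃ x : X, dist (ψ y) (φ x) < ε := by
    intro y
    rw [hausdorffEDist_comm] at h2
    obtain ⟨_, ⟨x, rfl⟩, hx⟩ := exists_edist_lt_of_hausdorffEDist_lt (mem_range_self y) h2
    rw [edist_dist] at hx
    exact ⟨x, (ENNReal.ofReal_lt_ofReal_iff hε).1 hx⟩
  choose f hf using a1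
  choose g hg using a2
  refine ⟨f, g, fun x x' => ?_, fun y y' => ?_, fun y => ?_⟩
  · rw [← hφ.dist_eq, ← hψ.dist_eq]
    have := hf x
    have := hf x'
    have t1 := dist_triangle4 (φ x) (ψ (f x)) (ψ (f x')) (φ x')
    have t2 := dist_triangle4 (ψ (f x)) (φ x) (φ x') (ψ (f x'))
    rw [dist_comm (ψ (f x')) (φ x')] at t1
    rw [dist_comm (ψ (f x)) (φ x)] at t2
    rw [abs_le]; constructor <;> linarith
  · rw [← hφ.dist_eq, ← hψ.dist_eq]
    have := hg y
    have := hg y'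
    have t1 := dist_triangle4 (ψ y) (φ (g y)) (φ (g y')) (ψ y')
    have t2 := dist_triangle4 (φ (g y)) (ψ y) (ψ y') (φ (g y'))
    rw [dist_comm (φ (g y')) (ψ y')] at t1
    rw [dist_comm (φ (g y)) (ψ y)] at t2
    rw [abs_le]; constructor <;> linarith
  · rw [← hψ.dist_eq]
    have h3 := hf (g y)
    have h4 := hg y
    have := dist_triangle (ψ (f (g y))) (φ (g y)) (ψ y)
    rw [dist_comm (ψ (f (g y))) (φ (g y)), dist_comm (φ (g y)) (ψ y)] at this
    linarith

theorem unique_of_gaps {D : Set ℝ} (hc : IsClosed D) (hg : Gaps D) (X : Type) [MetricSpace X]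
    (hX : distSet X = D) : Unique X := by
  intro Y _ hne h
  obtain ⟨r, hr, hg⟩ := hg
  have hY : ∀ y y' : Y, dist y y' ∈ D := by
    intro y y'
    rw [← hc.closure_eq, Metric.mem_closure_iff]
    intro ε hε
    obtain ⟨f, g, -, h2, -⟩ := corr h (ε := ε / 4) (by positivity)
    refine ⟨dist (g y) (g y'), ?_, ?_⟩
    · rw [← hX]; exact ⟨_, _, rfl⟩
    · rw [Real.dist_eq]
      exact (h2 y y').trans_lt (by linarith)
  have hXD : ∀ x x' : X, dist x x' ∈ D := fun x x' => by rw [← hX]; exact ⟨_, _, rfl⟩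
  obtain ⟨f, g, h1, h2, h3⟩ := corr h (ε := r / 4) (by positivity)
  have hf : ∀ x x', dist (f x) (f x') = dist x x' := by
    intro x x'
    by_contra hc
    have := hg _ (hXD x x') _ (hY (f x) (f x')) (Ne.symm hc)
    have := h1 x x'
    linarith
  have hfg : ∀ y, f (g y) = y := by
    intro y
    by_contra hc
    have h0 : (0 : ℝ) ∈ D := by
      have := hXD (g y) (g y); rwa [dist_self] at this
    have e1 := hg _ (hY (f (g y)) y) 0 h0 (dist_pos.2 hc).ne'
    rw [sub_zero, abs_of_nonneg dist_nonneg] at e1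
    have := h3 y
    linarith
  exact ⟨IsometryEquiv.mk' f g hfg (Isometry.of_dist_eq hf)⟩

/-! ### Small gaps -/

lemma far_pairs {D : Set ℝ} (hD : Ok D) (hc : IsClosed D) (hd : IsDiscrete D) (hn : ¬ Gaps D)
    (M ε : ℝ) (hε : 0 < ε) : ∃ a ∈ D, ∃ b ∈ D, M < a ∧ a < b ∧ b - a ≤ ε := by
  by_contra hcon
  push Not at hcon
  have hfin : (D ∩ Icc 0 (M + ε)).Finite :=
    (isCompact_Icc.inter_left hc).finite (hd.mono inter_subset_left)
  -- a lower bound for the gaps in the bounded part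
  have key : ∃ δ > 0, ∀ a ∈ D ∩ Icc 0 (M + ε), ∀ b ∈ D ∩ Icc 0 (M + ε), a ≠ b → δ ≤ |a - b| := by
    have hF : ((D ∩ Icc 0 (M + ε)) ×ˢ (D ∩ Icc 0 (M + ε)) ∩ {p | p.1 ≠ p.2}).Finite :=
      (hfin.prod hfin).inter_of_left _
    rcases Set.eq_empty_or_nonempty
      ((D ∩ Icc 0 (M + ε)) ×ˢ (D ∩ Icc 0 (M + ε)) ∩ {p : ℝ × ℝ | p.1 ≠ p.2}) with he | hne
    · refine ⟨1, one_pos, fun a ha b hb hab => ?_⟩
      have : (a, b) ∈ ((D ∩ Icc 0 (M + ε)) ×ˢ (D ∩ Icc 0 (M + ε)) ∩ {p : ℝ × ℝ | p.1 ≠ p.2}) :=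
        ⟨⟨ha, hb⟩, hab⟩
      rw [he] at this; exact this.elim
    · obtain ⟨p, hp, hmin⟩ := hF.exists_minimalFor (fun p : ℝ × ℝ => |p.1 - p.2|) _ hne
      refine ⟨|p.1 - p.2|, abs_pos.2 (sub_ne_zero.2 hp.2), fun a ha b hb hab => ?_⟩
      by_contra hlt
      push Not at hlt
      have := hmin (j := (a, b)) ⟨⟨ha, hb⟩, hab⟩ hlt.le
      exact absurd this (not_le.2 hlt)
  obtain ⟨δ, hδ, hδ'⟩ := key
  apply hn
  refine ⟨min ε δ, lt_min hε hδ, ?_⟩
  have main : ∀ a ∈ D, ∀ b ∈ D, a < b → min ε δ ≤ b - a := by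
    intro a ha b hb hab
    by_contra hlt
    push Not at hlt
    have h1 : b - a < ε := hlt.trans_le (min_le_left _ _)
    have h2 : b - a < δ := hlt.trans_le (min_le_right _ _)
    have h3 : a ≤ M := by
      by_contra h; push Not at h
      exact absurd h1.le (not_le.2 (hcon a ha b hb h hab))
    have h4 := hδ' a ⟨ha, hD.nonneg a ha, by linarith⟩ b ⟨hb, hD.nonneg b hb, by linarith⟩ hab.ne
    rw [abs_sub_comm, abs_of_pos (by linarith)] at h4
    linarith
  intro a ha b hb hab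
  rcases lt_or_gt_of_ne hab with h | h
  · rw [abs_sub_comm, abs_of_pos (by linarith)]; exact main a ha b hb h
  · rw [abs_of_pos (by linarith)]; exact main b hb a ha h

theorem exists_pairs {D : Set ℝ} (hD : Ok D) (hc : IsClosed D) (hd : IsDiscrete D)
    (hn : ¬ Gaps D) : Nonempty (Pairs D) := by
  have hf := far_pairs hD hc hd hn
  -- the next pair
  have step : ∀ (n : ℕ) (p : ℝ × ℝ), ∃ q : ℝ × ℝ, q.1 ∈ D ∧ q.2 ∈ D ∧ p.2 < q.1 ∧ 0 < q.1 ∧
      q.1 < q.2 ∧ q.2 - q.1 ≤ 1 / ((n : ℝ) + 1) := by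
    intro n p
    obtain ⟨a, ha, b, hb, h1, h2, h3⟩ := hf (max p.2 0) (1 / ((n : ℝ) + 1)) (by positivity)
    exact ⟨(a, b), ha, hb, (le_max_left _ _).trans_lt h1, (le_max_right _ _).trans_lt h1, h2, h3⟩
  choose F hF using step
  let seq : ℕ → ℝ × ℝ := fun n => Nat.rec (F 0 (0, 0)) (fun n p => F (n + 1) p) n
  have h0 : seq 0 = F 0 (0, 0) := rfl
  have hs : ∀ n, seq (n + 1) = F (n + 1) (seq n) := fun n => rfl
  have hall : ∀ n, ∃ p, seq n = F n p := by
    intro n; cases n with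
    | zero => exact ⟨_, h0⟩
    | succ n => exact ⟨_, hs n⟩
  refine ⟨⟨fun n => (seq n).1, fun n => (seq n).2, ?_, ?_, ?_, ?_, ?_, ?_⟩⟩
  · intro n; obtain ⟨p, hp⟩ := hall n; rw [hp]; exact (hF n p).1
  · intro n; obtain ⟨p, hp⟩ := hall n; rw [hp]; exact (hF n p).2.1
  · intro n; obtain ⟨p, hp⟩ := hall n; rw [hp]; exact (hF n p).2.2.2.1
  · intro n; obtain ⟨p, hp⟩ := hall n; rw [hp]; exact (hF n p).2.2.2.2.1
  · intro n; rw [hs n]; exact (hF (n + 1) (seq n)).2.2.1
  · intro n; obtain ⟨p, hp⟩ := hall n; rw [hp]; exact (hF n p).2.2.2.2.2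

/-- the word of a sequence of bits: every bit is repeated infinitely often -/
def word (a : ℕ → Bool) (n : ℕ) : Bool := a n.unpair.1

lemma word_ne {a b : ℕ → Bool} (h : a ≠ b) (N : ℕ) : ∃ n, N ≤ n ∧ word a n ≠ word b n := by
  obtain ⟨i, hi⟩ := Function.ne_iff.1 h
  refine ⟨Nat.pair i N, Nat.right_le_pair i N, ?_⟩
  unfold word; rw [Nat.unpair_pair]; exact hi

instance {D : Set ℝ} (P : Pairs D) (w : ℕ → Bool) [Countable P.R] : Countable (Sp P w) := by
  have : Function.Injective (fun p : Sp P w => (p.fs, p.r)) := fun p q h =>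
    Sp.ext (congrArg Prod.fst h) (congrArg Prod.snd h)
  exact this.countable

/-- **The distance sets which force uniqueness at Gromov-Hausdorff distance zero.**
Let `D` be a closed discrete set of nonnegative real numbers containing `0`.
(1) All metric spaces with distance set `D` have the uniqueness property if and only if the gaps of
`D` are bounded from below.
(2) If the gaps are not bounded from below, then there are continuum many pairwise non-isometric
countable ultrametric spaces with distance set `D` all of whose Gromov-Hausdorff distances are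
zero. -/
theorem result (D : Set ℝ) (h0 : (0 : ℝ) ∈ D) (hnn : ∀ a ∈ D, 0 ≤ a) (hc : IsClosed D)
    (hd : IsDiscrete D) :
    ((∀ (X : Type) [MetricSpace X] [Nonempty X], distSet X = D → Unique X) ↔ Gaps D) ∧
    (¬ Gaps D → ∃ (X : (ℕ → Bool) → Type) (_ : ∀ a, MetricSpace (X a)),
      (∀ a, Nonempty (X a) ∧ Countable (X a) ∧ IsUltrametricDist (X a) ∧ distSet (X a) = D) ∧
      (∀ a b, dGH (X a) (X b) = 0) ∧ ∀ a b, a ≠ b → IsEmpty (X a ≃ᵢ X b)) := by
  have hD : Ok D := ⟨h0, hnn⟩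
  have part2 : ¬ Gaps D → ∃ (X : (ℕ → Bool) → Type) (_ : ∀ a, MetricSpace (X a)),
      (∀ a, Nonempty (X a) ∧ Countable (X a) ∧ IsUltrametricDist (X a) ∧ distSet (X a) = D) ∧
      (∀ a b, dGH (X a) (X b) = 0) ∧ ∀ a b, a ≠ b → IsEmpty (X a ≃ᵢ X b) := by
    intro hn
    obtain ⟨P⟩ := exists_pairs hD hc hd hn
    have hcD : D.Countable := by
      have := hd.to_subtype
      have h2 : Countable D := TopologicalSpace.separableSpace_iff_countable.1 inferInstance
      exact h2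
    haveI : Countable P.R := (hcD.mono fun a ha => ha.1).to_subtype
    refine ⟨fun a => Sp P (word a), fun a => Sp.ms hD (word a), fun a => ⟨⟨∅, ⟨0, zero_R hD⟩⟩, ?_,
      ultra hD _, distSet_eq hD _⟩, fun a b => dGH_zero hD _ _, fun a b hab =>
      no_iso hD (word_ne hab)⟩
    infer_instance
  refine ⟨⟨fun h => ?_, fun hg X _ _ hX => unique_of_gaps hc hg X hX⟩, part2⟩
  by_contra hn
  obtain ⟨X, _, h1, h2, h3⟩ := part2 hn
  let a : ℕ → Bool := fun _ => false
  let b : ℕ → Bool := fun _ => true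
  haveI := (h1 a).1
  haveI := (h1 b).1
  obtain ⟨e⟩ := h (X a) (h1 a).2.2.2 (X b) (h2 a b)
  exact (h3 a b (fun h => by simpa [a, b] using congrFun h 0)).false e

end Pool.Agent.Results.MP_1d6438_gt.Dichotomy
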